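import Pool.Agent.GT.StmtsA

open Finset

namespace Pool.Agent.GT.H95

open Pool.Agent.GT

section Glue

variable {ι A α η : Type} {n r : ℕ}

/-- words on `ι` from words on `Fin n` and `Fin r` -/
def gl (e : ι ≃ Fin n ⊕ Fin r) (x : Fin n → A) (y : Fin r → A) : ι → A :=
  fun i => Sum.elim x y (e i)

/-- the corresponding equivalence -/
def glE (e : ι ≃ Fin n ⊕ Fin r) : (ι → A) ≃ (Fin n → A) × (Fin r → A) where
  toFun u := (fun i => u (e.symm (Sum.inl i)), fun i => u (e.symm (Sum.inr i)))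
  invFun p := gl e p.1 p.2
  left_inv u := by
    funext i
    change Sum.elim (fun i => u (e.symm (Sum.inl i))) (fun i => u (e.symm (Sum.inr i))) (e i) = u i
    rcases h : e i with a | b
    · change u (e.symm (Sum.inl a)) = u i
      rw [← h, e.symm_apply_apply]
    · change u (e.symm (Sum.inr b)) = u i
      rw [← h, e.symm_apply_apply]
  right_inv p := by
    unfold gl
    ext i <;> simp

theorem gl_glE (e : ι ≃ Fin n ⊕ Fin r) (u : ι → A) : gl e (glE e u).1 (glE e u).2 = u :=
  (glE e).left_inv u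

theorem glE_gl (e : ι ≃ Fin n ⊕ Fin r) (x : Fin n → A) (y : Fin r → A) :
    glE e (gl e x y) = (x, y) := (glE e).right_inv (x, y)

/-- Fubini -/
theorem sum_gl [Fintype A] (e : ι ≃ Fin n ⊕ Fin r) (D : Finset (ι → A))
    [∀ x : Fin n → A, DecidablePred fun y : Fin r → A => gl e x y ∈ D] (φ : (ι → A) → ℝ) :
    ∑ u ∈ D, φ u = ∑ x : Fin n → A, ∑ y ∈ univ.filter (fun y : Fin r → A => gl e x y ∈ D),
      φ (gl e x y) := by
  rw [Finset.sum_sigma']
  refine Finset.sum_bij' (fun u _ => (⟨(glE e u).1, (glE e u).2⟩ : Σ _ : Fin n → A, Fin r → A))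
    (fun p _ => gl e p.1 p.2) ?_ ?_ ?_ ?_ ?_
  · intro u hu
    simp only [mem_sigma, mem_univ, mem_filter, true_and]
    rw [gl_glE]
    exact hu
  · intro p hp
    simp only [mem_sigma, mem_univ, mem_filter, true_and] at hp
    exact hp
  · intro u hu
    exact gl_glE e u
  · intro p hp
    simp only [glE_gl]
  · intro u hu
    simp only [gl_glE]

/-- Fubini, other order -/
theorem card_gl' [Fintype A] (e : ι ≃ Fin n ⊕ Fin r) (D : Finset (ι → A))
    [∀ y : Fin r → A, DecidablePred fun x : Fin n → A => gl e x y ∈ D] :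
    (D.card : ℝ) = ∑ y : Fin r → A,
      ((univ.filter (fun x : Fin n → A => gl e x y ∈ D)).card : ℝ) := by
  rw [← Nat.cast_sum]
  congr 1
  rw [← Finset.card_sigma]
  refine Finset.card_bij' (fun u _ => (⟨(glE e u).2, (glE e u).1⟩ : Σ _ : Fin r → A, Fin n → A))
    (fun p _ => gl e p.2 p.1) ?_ ?_ ?_ ?_
  · intro u hu
    simp only [mem_sigma, mem_univ, mem_filter, true_and]
    rw [gl_glE]
    exact hu
  · intro p hp
    simp only [mem_sigma, mem_univ, mem_filter, true_and] at hp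
    exact hp
  · intro u hu
    exact gl_glE e u
  · intro p hp
    simp only [glE_gl]

/-- glued subspaces -/
theorem isSub_left (e : ι ≃ Fin n ⊕ Fin r) {f : Fin n → α ⊕ η} (hf : IsSub f) (y : Fin r → α) :
    IsSub (gl e f fun j => Sum.inl (y j)) := by
  intro t
  obtain ⟨i, hi⟩ := hf t
  refine ⟨e.symm (Sum.inl i), ?_⟩
  simp [gl, hi]

theorem sp_left (e : ι ≃ Fin n ⊕ Fin r) (f : Fin n → α ⊕ η) (y : Fin r → α) (z : η → α) :
    sp (gl e f fun j => Sum.inl (y j)) z = gl e (sp f z) y := by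
  funext i
  unfold sp gl
  rcases e i with a | b <;> rfl

theorem isSub_right (e : ι ≃ Fin n ⊕ Fin r) {g : Fin r → α ⊕ η} (hg : IsSub g) (x : Fin n → α) :
    IsSub (gl e (fun j => Sum.inl (x j)) g) := by
  intro t
  obtain ⟨i, hi⟩ := hg t
  refine ⟨e.symm (Sum.inr i), ?_⟩
  simp [gl, hi]

theorem sp_right (e : ι ≃ Fin n ⊕ Fin r) (g : Fin r → α ⊕ η) (x : Fin n → α) (z : η → α) :
    sp (gl e (fun j => Sum.inl (x j)) g) z = gl e x (sp g z) := by
  funext i
  unfold sp gl
  rcases e i with a | b <;> rfl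

theorem eqv_gl {k : ℕ} {a : Fin k} (e : ι ≃ Fin n ⊕ Fin r) {x x' : Fin n → Fin (k + 1)}
    {y y' : Fin r → Fin (k + 1)} (hx : Eqv a x x') (hy : Eqv a y y') :
    Eqv a (gl e x y) (gl e x' y') := by
  intro i
  unfold gl
  rcases e i with j | j
  · exact hx j
  · exact hy j

theorem eqv_refl {k : ℕ} {a : Fin k} (x : ι → Fin (k + 1)) : Eqv a x x := fun _ => Or.inl rfl

end Glue

/-- the claim for `j` -/
theorem claim {k : ℕ} (a : Fin k) (m n₁ : ℕ) (η c : ℝ) (hη : 0 < η) (hc0 : 0 < c) (hc1 : c ≤ 1)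
    (hc : c * ((2 * ((k : ℝ) + 1 + m) ^ n₁) * ((k : ℝ) + 1) ^ n₁) ≤ ((k : ℝ) + 1) ^ m * η)
    (hn : ∀ D : Finset (Fin n₁ → Fin (k + 1)), Ins a D → η / 2 * ((k : ℝ) + 1) ^ n₁ ≤ D.card →
      ∃ f : Fin n₁ → Fin (k + 1) ⊕ Fin m, IsSub f ∧ ∀ y, sp f y ∈ D) (j : ℕ) :
    ∀ (ι : Type) [Fintype ι], n₁ * j ≤ Fintype.card ι → ∀ φ : (ι → Fin (k + 1)) → ℝ,
      (∀ x, φ x ≤ 1) →
      (∀ f : ι → Fin (k + 1) ⊕ Fin m, IsSub f → ∑ y, φ (sp f y) ≤ 0) →
      ∀ D : Finset (ι → Fin (k + 1)), Ins a D →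
        ∑ x ∈ D, φ x ≤ η * ((k : ℝ) + 1) ^ Fintype.card ι + (1 - c) ^ j * D.card := by
  classical
  have hk0 : (0 : ℝ) < (k : ℝ) + 1 := by positivity
  have hc1' : 0 ≤ 1 - c := by linarith
  induction j with
  | zero =>
    intro ι _ _ φ hφ _ D _
    have h1 : ∑ x ∈ D, φ x ≤ ∑ x ∈ D, (1 : ℝ) := Finset.sum_le_sum fun x _ => hφ x
    have h2 : 0 ≤ η * ((k : ℝ) + 1) ^ Fintype.card ι := by positivity
    simp only [sum_const, nsmul_eq_mul, mul_one] at h1
    simp only [pow_zero, one_mul]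
    linarith
  | succ j ih =>
    intro ι _ hι φ hφ hsub D hD
    have hpow0 : 0 ≤ η * ((k : ℝ) + 1) ^ Fintype.card ι := by positivity
    by_cases hsmall : (D.card : ℝ) < η * ((k : ℝ) + 1) ^ Fintype.card ι
    · have h1 : ∑ x ∈ D, φ x ≤ ∑ x ∈ D, (1 : ℝ) := Finset.sum_le_sum fun x _ => hφ x
      simp only [sum_const, nsmul_eq_mul, mul_one] at h1
      have h2 : 0 ≤ (1 - c) ^ (j + 1) * D.card := by positivity
      linarith
    rw [not_lt] at hsmall
    -- the splitting
    obtain ⟨r, hr⟩ : ∃ r, Fintype.card ι = n₁ + r :=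
      Nat.exists_eq_add_of_le (le_trans (by nlinarith) hι)
    have hrj : n₁ * j ≤ r := by nlinarith
    have e : ι ≃ Fin n₁ ⊕ Fin r := Fintype.equivOfCardEq (by simp [hr])
    set P : ℝ := ((k : ℝ) + 1) ^ n₁ with hP
    set R : ℝ := ((k : ℝ) + 1) ^ r with hR
    have hP0 : 0 < P := by positivity
    have hR0 : 0 < R := by positivity
    have hPR : ((k : ℝ) + 1) ^ Fintype.card ι = P * R := by rw [hr, pow_add]
    rw [hPR] at hsmall ⊢
    -- many `y` with a large fibre
    set Dy : (Fin r → Fin (k + 1)) → Finset (Fin n₁ → Fin (k + 1)) :=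
      fun y => univ.filter fun x => gl e x y ∈ D with hDy
    set Bs : Finset (Fin r → Fin (k + 1)) := univ.filter fun y => η / 2 * P ≤ (Dy y).card with hBs
    have hDyP : ∀ y, ((Dy y).card : ℝ) ≤ P := by
      intro y
      have h := Finset.card_le_univ (Dy y)
      rw [Fintype.card_fun, Fintype.card_fin, Fintype.card_fin] at h
      have h' : ((Dy y).card : ℝ) ≤ (((k + 1) ^ n₁ : ℕ) : ℝ) := by exact_mod_cast h
      rw [hP]
      push_cast at h'
      exact h'
    have hcardR : (Fintype.card (Fin r → Fin (k + 1)) : ℝ) = R := by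
      rw [Fintype.card_fun, Fintype.card_fin, Fintype.card_fin, hR]
      push_cast
      rfl
    have hB : η / 2 * R ≤ Bs.card := by
      have h1 : (D.card : ℝ) ≤ ∑ y : Fin r → Fin (k + 1), ((if y ∈ Bs then P else 0) + η / 2 * P) := by
        rw [card_gl' e D]
        refine Finset.sum_le_sum fun y _ => ?_
        change ((Dy y).card : ℝ) ≤ _
        by_cases hy : y ∈ Bs
        · rw [if_pos hy]
          have := hDyP y
          have : 0 ≤ η / 2 * P := by positivity
          linarith [hDyP y]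
        · rw [if_neg hy]
          rw [hBs, mem_filter] at hy
          push Not at hy
          linarith [hy (mem_univ _)]
      rw [Finset.sum_add_distrib, Finset.sum_ite_mem, univ_inter, sum_const, sum_const,
        nsmul_eq_mul, nsmul_eq_mul, Finset.card_univ, hcardR] at h1
      have h2 : η / 2 * R * P ≤ Bs.card * P := by nlinarith
      exact le_of_mul_le_mul_right h2 hP0
    -- the subspaces
    have hins : ∀ y, Ins a (Dy y) := by
      intro y x x' hxx' hx
      rw [hDy] at hx ⊢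
      simp only [mem_filter, mem_univ, true_and] at hx ⊢
      exact hD _ _ (eqv_gl e hxx' (eqv_refl y)) hx
    have hex : ∀ y ∈ Bs, ∃ f : Fin n₁ → Fin (k + 1) ⊕ Fin m, IsSub f ∧ ∀ z, sp f z ∈ Dy y := by
      intro y hy
      rw [hBs, mem_filter] at hy
      exact hn (Dy y) (hins y) hy.2
    have hBne : Bs.Nonempty := by
      rw [← Finset.card_pos]
      have : (0 : ℝ) < Bs.card := lt_of_lt_of_le (by positivity) hB
      exact_mod_cast this
    choose! ff hff1 hff2 using hex
    set F : ℝ := ((k : ℝ) + 1 + m) ^ n₁ with hF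
    have hF0 : 0 < F := by positivity
    have hcardF : (Fintype.card (Fin n₁ → Fin (k + 1) ⊕ Fin m) : ℝ) = F := by
      rw [Fintype.card_fun, Fintype.card_sum, Fintype.card_fin, Fintype.card_fin, Fintype.card_fin,
        hF]
      push_cast
      rfl
    obtain ⟨f, hf⟩ : ∃ f : Fin n₁ → Fin (k + 1) ⊕ Fin m,
        (Bs.card : ℝ) / F ≤ ((Bs.filter fun y => ff y = f).card : ℝ) := by
      by_contra hcon
      push Not at hcon
      have h1 : (Bs.card : ℝ) = ∑ f : Fin n₁ → Fin (k + 1) ⊕ Fin m,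
          ((Bs.filter fun y => ff y = f).card : ℝ) := by
        rw [← Nat.cast_sum]
        congr 1
        exact Finset.card_eq_sum_card_fiberwise fun y _ => mem_coe.mpr (mem_univ (ff y))
      have hne : (univ : Finset (Fin n₁ → Fin (k + 1) ⊕ Fin m)).Nonempty := by
        obtain ⟨y, hy⟩ := hBne
        exact ⟨ff y, mem_univ _⟩
      have h2 : ∑ f : Fin n₁ → Fin (k + 1) ⊕ Fin m, ((Bs.filter fun y => ff y = f).card : ℝ) <
          ∑ _f : Fin n₁ → Fin (k + 1) ⊕ Fin m, (Bs.card : ℝ) / F :=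
        Finset.sum_lt_sum_of_nonempty hne fun f _ => hcon f
      rw [← h1, sum_const, nsmul_eq_mul, Finset.card_univ, hcardF, mul_div_cancel₀ _ hF0.ne'] at h2
      exact lt_irrefl _ h2
    have hfpos : (0 : ℝ) < ((Bs.filter fun y => ff y = f).card : ℝ) := by
      refine lt_of_lt_of_le ?_ hf
      have : (0 : ℝ) < Bs.card := lt_of_lt_of_le (by positivity) hB
      positivity
    have hfS : IsSub f := by
      have : (Bs.filter fun y => ff y = f).Nonempty := by
        rw [← Finset.card_pos]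
        exact_mod_cast hfpos
      obtain ⟨y, hy⟩ := this
      rw [mem_filter] at hy
      rw [← hy.2]
      exact hff1 y hy.1
    set Y : Finset (Fin r → Fin (k + 1)) :=
      univ.filter fun y => ∀ z : Fin m → Fin (k + 1), gl e (sp f z) y ∈ D with hY
    have hYcard : η / (2 * F) * R ≤ Y.card := by
      have h1 : (Bs.filter fun y => ff y = f) ⊆ Y := by
        intro y hy
        rw [mem_filter] at hy
        rw [hY, mem_filter]
        refine ⟨mem_univ _, fun z => ?_⟩
        have := hff2 y hy.1 z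
        rw [hy.2, hDy] at this
        simpa using this
      have h2 : ((Bs.filter fun y => ff y = f).card : ℝ) ≤ Y.card := by
        exact_mod_cast Finset.card_le_card h1
      refine le_trans ?_ (hf.trans h2)
      rw [le_div_iff₀ hF0]
      have : η / (2 * F) * R * F = η / 2 * R := by
        field_simp
      rw [this]
      exact hB
    have hYins : Ins a Y := by
      intro y y' hyy' hy
      rw [hY, mem_filter] at hy ⊢
      refine ⟨mem_univ _, fun z => ?_⟩
      exact hD _ _ (eqv_gl e (eqv_refl _) hyy') (hy.2 z)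
    -- the fibres of the reduced set
    set Dx : (Fin n₁ → Fin (k + 1)) → Finset (Fin r → Fin (k + 1)) :=
      fun x => univ.filter fun y => gl e x y ∈ D with hDx
    set Rg : Finset (Fin n₁ → Fin (k + 1)) := univ.image (sp f) with hRg
    set D' : (Fin n₁ → Fin (k + 1)) → Finset (Fin r → Fin (k + 1)) :=
      fun x => if x ∈ Rg then Dx x \ Y else Dx x with hD'
    have hYD : ∀ x ∈ Rg, Y ⊆ Dx x := by
      intro x hx y hy
      rw [hRg, mem_image] at hx
      obtain ⟨z, -, rfl⟩ := hx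
      rw [hY, mem_filter] at hy
      rw [hDx]
      simp only [mem_filter, mem_univ, true_and]
      exact hy.2 z
    have hDxins : ∀ x, Ins a (Dx x) := by
      intro x y y' hyy' hy
      rw [hDx] at hy ⊢
      simp only [mem_filter, mem_univ, true_and] at hy ⊢
      exact hD _ _ (eqv_gl e (eqv_refl x) hyy') hy
    have hD'ins : ∀ x, Ins a (D' x) := by
      intro x
      by_cases hx : x ∈ Rg
      · have : D' x = Dx x \ Y := by rw [hD']; exact if_pos hx
        rw [this]
        intro y y' hyy' hy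
        rw [mem_sdiff] at hy ⊢
        exact ⟨hDxins x y y' hyy' hy.1, fun h => hy.2 (hYins y' y hyy'.symm h)⟩
      · have : D' x = Dx x := by rw [hD']; exact if_neg hx
        rw [this]
        exact hDxins x
    -- sums over fibres
    have hsplit : ∀ (x : Fin n₁ → Fin (k + 1)) (ψ : (Fin r → Fin (k + 1)) → ℝ),
        ∑ y ∈ Dx x, ψ y = ∑ y ∈ D' x, ψ y + if x ∈ Rg then ∑ y ∈ Y, ψ y else 0 := by
      intro x ψ
      by_cases hx : x ∈ Rg
      · have : D' x = Dx x \ Y := by rw [hD']; exact if_pos hx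
        rw [this, if_pos hx, Finset.sum_sdiff (hYD x hx)]
      · have : D' x = Dx x := by rw [hD']; exact if_neg hx
        rw [this, if_neg hx, add_zero]
    have hspinj : Function.Injective (sp f) := hfS.injective
    have hsumRg : ∀ ψ : (Fin n₁ → Fin (k + 1)) → ℝ,
        ∑ x : Fin n₁ → Fin (k + 1), (if x ∈ Rg then ψ x else 0) =
          ∑ z : Fin m → Fin (k + 1), ψ (sp f z) := by
      intro ψ
      rw [Finset.sum_ite_mem, univ_inter, hRg, Finset.sum_image fun x _ y _ h => hspinj h]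
    have hmain : ∑ u ∈ D, φ u ≤ ∑ x : Fin n₁ → Fin (k + 1), ∑ y ∈ D' x, φ (gl e x y) := by
      rw [sum_gl e D φ]
      change ∑ x : Fin n₁ → Fin (k + 1), ∑ y ∈ Dx x, φ (gl e x y) ≤ _
      have h1 : ∑ x : Fin n₁ → Fin (k + 1), ∑ y ∈ Dx x, φ (gl e x y) =
          ∑ x : Fin n₁ → Fin (k + 1), ∑ y ∈ D' x, φ (gl e x y) +
            ∑ x : Fin n₁ → Fin (k + 1), (if x ∈ Rg then ∑ y ∈ Y, φ (gl e x y) else 0) := by
        rw [← Finset.sum_add_distrib]
        exact Finset.sum_congr rfl fun x _ => hsplit x _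
      rw [h1, hsumRg (fun x => ∑ y ∈ Y, φ (gl e x y)), Finset.sum_comm]
      have h2 : ∑ y ∈ Y, ∑ z : Fin m → Fin (k + 1), φ (gl e (sp f z) y) ≤ 0 := by
        refine Finset.sum_nonpos fun y _ => ?_
        have := hsub (gl e f fun j => Sum.inl (y j)) (isSub_left e hfS y)
        simpa only [sp_left] using this
      linarith
    have hcardD' : ∑ x : Fin n₁ → Fin (k + 1), ((D' x).card : ℝ) =
        D.card - ((k : ℝ) + 1) ^ m * Y.card := by
      have h1 : (D.card : ℝ) = ∑ u ∈ D, (1 : ℝ) := by simp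
      rw [h1, sum_gl e D fun _ => 1]
      change _ = ∑ x : Fin n₁ → Fin (k + 1), ∑ y ∈ Dx x, (1 : ℝ) - _
      have h2 : ∑ x : Fin n₁ → Fin (k + 1), ∑ y ∈ Dx x, (1 : ℝ) =
          ∑ x : Fin n₁ → Fin (k + 1), ∑ y ∈ D' x, (1 : ℝ) +
            ∑ x : Fin n₁ → Fin (k + 1), (if x ∈ Rg then ∑ y ∈ Y, (1 : ℝ) else 0) := by
        rw [← Finset.sum_add_distrib]
        exact Finset.sum_congr rfl fun x _ => hsplit x fun _ => 1
      rw [h2, hsumRg (fun _ => ∑ y ∈ Y, (1 : ℝ))]
      simp only [sum_const, nsmul_eq_mul, mul_one, Finset.card_univ]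
      rw [Fintype.card_fun, Fintype.card_fin, Fintype.card_fin]
      push_cast
      ring
    have hih : ∀ x : Fin n₁ → Fin (k + 1), ∑ y ∈ D' x, φ (gl e x y) ≤
        η * R + (1 - c) ^ j * (D' x).card := by
      intro x
      have := ih (Fin r) (by rw [Fintype.card_fin]; exact hrj) (fun y => φ (gl e x y))
        (fun y => hφ _) (fun g hg => by
          have := hsub (gl e (fun j => Sum.inl (x j)) g) (isSub_right e hg x)
          simpa only [sp_right] using this) (D' x) (hD'ins x)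
      rw [Fintype.card_fin] at this
      exact this
    have hcardP : (Fintype.card (Fin n₁ → Fin (k + 1)) : ℝ) = P := by
      rw [Fintype.card_fun, Fintype.card_fin, Fintype.card_fin, hP]
      push_cast
      rfl
    have hsum : ∑ x : Fin n₁ → Fin (k + 1), ∑ y ∈ D' x, φ (gl e x y) ≤
        η * (P * R) + (1 - c) ^ j * (D.card - ((k : ℝ) + 1) ^ m * Y.card) := by
      refine (Finset.sum_le_sum fun x _ => hih x).trans (le_of_eq ?_)
      have h6 : ∑ x : Fin n₁ → Fin (k + 1), (1 - c) ^ j * ((D' x).card : ℝ) =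
          (1 - c) ^ j * (D.card - ((k : ℝ) + 1) ^ m * Y.card) := by
        rw [← Finset.mul_sum, hcardD']
      rw [Finset.sum_add_distrib, h6, sum_const, nsmul_eq_mul, Finset.card_univ, hcardP]
      ring
    have hcD : c * (D.card : ℝ) ≤ ((k : ℝ) + 1) ^ m * Y.card := by
      have h1 : (D.card : ℝ) ≤ P * R := by
        have h := Finset.card_le_univ D
        rw [Fintype.card_fun, Fintype.card_fin] at h
        have h' : (D.card : ℝ) ≤ (((k + 1) ^ Fintype.card ι : ℕ) : ℝ) := by exact_mod_cast h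
        rw [← hPR]
        push_cast at h'
        exact h'
      have h2 : c * (P * R) ≤ ((k : ℝ) + 1) ^ m * (η / (2 * F) * R) := by
        have h3 : c * (2 * F * P) ≤ ((k : ℝ) + 1) ^ m * η := hc
        have h4 : ((k : ℝ) + 1) ^ m * (η / (2 * F) * R) = ((k : ℝ) + 1) ^ m * η * R / (2 * F) := by
          ring
        rw [h4, le_div_iff₀ (by positivity)]
        calc c * (P * R) * (2 * F) = c * (2 * F * P) * R := by ring
          _ ≤ ((k : ℝ) + 1) ^ m * η * R := mul_le_mul_of_nonneg_right h3 hR0.le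
      calc c * (D.card : ℝ) ≤ c * (P * R) := mul_le_mul_of_nonneg_left h1 hc0.le
        _ ≤ ((k : ℝ) + 1) ^ m * (η / (2 * F) * R) := h2
        _ ≤ ((k : ℝ) + 1) ^ m * Y.card := mul_le_mul_of_nonneg_left hYcard (by positivity)
    refine hmain.trans (hsum.trans ?_)
    have h5 : (1 - c) ^ j * (D.card - ((k : ℝ) + 1) ^ m * Y.card) ≤
        (1 - c) ^ j * ((1 - c) * D.card) := by
      refine mul_le_mul_of_nonneg_left ?_ (by positivity)
      linarith
    rw [pow_succ]
    linarith

theorem prt : PrtStmt := by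
  intro k hFN a m η hη
  have hk0 : (0 : ℝ) < (k : ℝ) + 1 := by positivity
  obtain ⟨n₁, hn₁⟩ := hFN a m (η / 2 / 2) (by positivity)
  set c₀ : ℝ := ((k : ℝ) + 1) ^ m * (η / 2) /
    ((2 * ((k : ℝ) + 1 + m) ^ n₁) * ((k : ℝ) + 1) ^ n₁) with hc₀
  have hden : 0 < (2 * ((k : ℝ) + 1 + m) ^ n₁) * ((k : ℝ) + 1) ^ n₁ := by positivity
  have hc₀0 : 0 < c₀ := by positivity
  set c : ℝ := min c₀ 1 with hc
  have hc0 : 0 < c := lt_min hc₀0 one_pos
  have hc1 : c ≤ 1 := min_le_right _ _
  have hcc : c * ((2 * ((k : ℝ) + 1 + m) ^ n₁) * ((k : ℝ) + 1) ^ n₁) ≤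
      ((k : ℝ) + 1) ^ m * (η / 2) := by
    rw [← le_div_iff₀ hden]
    exact min_le_left _ _
  obtain ⟨j, hj⟩ := exists_pow_lt_of_lt_one (show (0 : ℝ) < η / 2 by positivity)
    (show 1 - c < 1 by linarith)
  refine ⟨n₁ * j, fun ι _ hι φ hφ hsub D hD => ?_⟩
  have hmain := claim a m n₁ (η / 2) c (by positivity) hc0 hc1 hcc
    (fun D hD h => by
      have := hn₁ (Fin n₁) (by simp) D hD (by rw [Fintype.card_fin]; exact h)
      exact this) j ι hι φ hφ hsub D hD
  classical
  have hcard : (D.card : ℝ) ≤ ((k : ℝ) + 1) ^ Fintype.card ι := by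
    have h := Finset.card_le_univ D
    rw [Fintype.card_fun, Fintype.card_fin] at h
    have h' : (D.card : ℝ) ≤ (((k + 1) ^ Fintype.card ι : ℕ) : ℝ) := by exact_mod_cast h
    push_cast at h'
    exact h'
  have h0 : (0 : ℝ) ≤ D.card := Nat.cast_nonneg _
  have h1 : (1 - c) ^ j * D.card ≤ η / 2 * ((k : ℝ) + 1) ^ Fintype.card ι :=
    mul_le_mul hj.le hcard h0 (by positivity)
  linarith

end Pool.Agent.GT.H95
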