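import Pool.Agent.GT.StmtsC

open Finset

namespace Pool.Agent.GT.H95

open Pool.Agent.GT

theorem tds : TdsStmt := by
  intro P R q hR hP hq hRq
  have hfil : P.powerset.filter (fun a => nn a ∣ q) = {∅} := by
    ext a
    rw [mem_filter, mem_powerset, mem_singleton]
    constructor
    · rintro ⟨haP, hd⟩
      by_contra hne
      obtain ⟨p, hp⟩ := Finset.nonempty_iff_ne_empty.mpr hne
      have h1 : p ∣ q := (Finset.dvd_prod_of_mem (fun p => p) hp).trans hd
      have h2 := hP p (haP hp)
      have h3 : p = q := (Nat.prime_dvd_prime_iff_eq h2.1 hq).mp h1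
      omega
    · rintro rfl
      exact ⟨Finset.empty_subset _, by simp [nn]⟩
  have hgg : ∀ r ∈ lv P R, 0 ≤ gg r := by
    intro r hr
    unfold lv at hr
    rw [mem_filter, mem_powerset] at hr
    unfold gg
    refine Finset.prod_nonneg fun p hp => ?_
    have h2 : (2 : ℝ) ≤ p := by exact_mod_cast (hP p (hr.1 hp)).1.two_le
    exact div_nonneg zero_le_one (by linarith)
  have hmem : (∅ : Finset ℕ) ∈ lv P R := by
    unfold lv
    rw [mem_filter]
    exact ⟨Finset.empty_mem_powerset _, by simp [nn]; omega⟩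
  have hGG : 1 ≤ GG P R := by
    unfold GG
    have h := Finset.single_le_sum hgg hmem
    have h1 : gg ∅ = 1 := by simp [gg]
    rw [h1] at h
    exact h
  unfold Pool.Agent.GT.tds
  rw [hfil, Finset.sum_singleton]
  unfold lam
  have h4 : (lv P R).filter (fun r => (∅ : Finset ℕ) ⊆ r) = lv P R :=
    Finset.filter_true_of_mem fun r _ => Finset.empty_subset _
  rw [h4]
  change (-1) ^ (∅ : Finset ℕ).card * (nn ∅ : ℝ) * GG P R / GG P R = 1
  rw [Finset.card_empty, pow_zero, one_mul]
  have h5 : (nn ∅ : ℕ) = 1 := by simp [nn]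
  rw [h5, Nat.cast_one, one_mul]
  exact div_self (by linarith)

end Pool.Agent.GT.H95
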